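import Pool.Agent.Helper11.WeakMax.Defs

/-!
# MP_7a1b54_al, OFFER C: exactness and patterns

Left-normed commutators of the elements of one level of a system `Sys G`, patterns, splitting of the
patterns over the next level, generation of the factors of the lower central series by finitely many
patterns, and exactness: `gam S (n+1)` lies in the normal closure of finitely many elements of
`gam S n`.
-/

set_option autoImplicit false

namespace Pool.Agent.Helper11.WeakMax

open scoped commutatorElement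

section lnc

variable {G : Type*} [Group G]

/-- Left-normed commutator of `a 0, ..., a n`. -/
def lnc (a : ℕ → G) : ℕ → G
  | 0 => a 0
  | n + 1 => ⁅lnc a n, a (n + 1)⁆

theorem lnc_congr {a b : ℕ → G} (n : ℕ) (h : ∀ j ≤ n, a j = b j) : lnc a n = lnc b n := by
  induction n with
  | zero => exact h 0 le_rfl
  | succ n ih =>
    simp only [lnc]
    rw [ih (fun j hj => h j (by omega)), h (n + 1) le_rfl]

theorem map_lnc {G' : Type*} [Group G'] (f : G →* G') (a : ℕ → G) (n : ℕ) :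
    f (lnc a n) = lnc (fun j => f (a j)) n := by
  induction n with
  | zero => rfl
  | succ n ih =>
    simp only [lnc]
    rw [map_commutatorElement, ih]

theorem lnc_mem (H : Subgroup G) {a : ℕ → G} (n : ℕ) (h : ∀ j ≤ n, a j ∈ H) : lnc a n ∈ H := by
  induction n with
  | zero => exact h 0 le_rfl
  | succ n ih =>
    simp only [lnc, commutatorElement_def]
    have h1 := ih (fun j hj => h j (by omega))
    have h2 := h (n + 1) le_rfl
    exact H.mul_mem (H.mul_mem (H.mul_mem h1 h2) (H.inv_mem h1)) (H.inv_mem h2)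

theorem lnc_mem_gam (H : Subgroup G) {a : ℕ → G} (n : ℕ) (h : ∀ j ≤ n, a j ∈ H) :
    lnc a n ∈ gam H n := by
  induction n with
  | zero => exact h 0 le_rfl
  | succ n ih =>
    simp only [lnc, gam]
    exact Subgroup.commutator_mem_commutator (ih (fun j hj => h j (by omega))) (h (n + 1) le_rfl)

theorem lnc_commute {a : ℕ → G} (n : ℕ) {g : G} (h : ∀ j ≤ n, Commute (a j) g) :
    Commute (lnc a n) g := by
  have h1 : lnc a n ∈ Subgroup.centralizer ({g} : Set G) := by
    apply lnc_mem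
    intro j hj
    rw [Subgroup.mem_centralizer_iff]
    intro k hk
    rw [Set.mem_singleton_iff] at hk
    subst hk
    exact (h j hj).symm
  rw [Subgroup.mem_centralizer_iff] at h1
  exact (h1 g rfl).symm

theorem comm_mul_mul {a b a' b' : G} (h1 : Commute a a') (h2 : Commute a b') (h3 : Commute b a')
    (h4 : Commute b b') : ⁅a * a', b * b'⁆ = ⁅a, b⁆ * ⁅a', b'⁆ := by
  simp only [commutatorElement_def]
  have h5 : Commute a⁻¹ a' := h1.inv_left
  have h6 : Commute a⁻¹ b' := h2.inv_left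
  have h7 : Commute b⁻¹ a' := h3.inv_left
  have h8 : Commute b⁻¹ b' := h4.inv_left
  have h9 : Commute a⁻¹ a'⁻¹ := h5.inv_right
  have h10 : Commute b⁻¹ a'⁻¹ := h7.inv_right
  have h11 : Commute b⁻¹ b'⁻¹ := h8.inv_right
  calc a * a' * (b * b') * (a * a')⁻¹ * (b * b')⁻¹
      = a * (a' * b) * b' * (a'⁻¹ * a⁻¹) * (b'⁻¹ * b⁻¹) := by group
    _ = a * (b * a') * b' * (a⁻¹ * a'⁻¹) * (b⁻¹ * b'⁻¹) := by rw [h3.eq, h9.eq, h11.eq]
    _ = a * b * a' * (b' * a⁻¹) * (a'⁻¹ * b⁻¹) * b'⁻¹ := by group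
    _ = a * b * a' * (a⁻¹ * b') * (b⁻¹ * a'⁻¹) * b'⁻¹ := by rw [h6.eq, h10.eq]
    _ = a * b * (a' * a⁻¹) * (b' * b⁻¹) * a'⁻¹ * b'⁻¹ := by group
    _ = a * b * (a⁻¹ * a') * (b⁻¹ * b') * a'⁻¹ * b'⁻¹ := by rw [h5.eq, h8.eq]
    _ = a * b * a⁻¹ * (a' * b⁻¹) * b' * a'⁻¹ * b'⁻¹ := by group
    _ = a * b * a⁻¹ * (b⁻¹ * a') * b' * a'⁻¹ * b'⁻¹ := by rw [h7.eq]
    _ = a * b * a⁻¹ * b⁻¹ * (a' * b' * a'⁻¹ * b'⁻¹) := by group

theorem lnc_mul {a b : ℕ → G} (n : ℕ) (h : ∀ i ≤ n, ∀ j ≤ n, Commute (a i) (b j)) :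
    lnc (fun j => a j * b j) n = lnc a n * lnc b n := by
  induction n with
  | zero => rfl
  | succ n ih =>
    simp only [lnc]
    rw [ih (fun i hi j hj => h i (by omega) j (by omega))]
    apply comm_mul_mul
    · apply lnc_commute
      intro j hj
      exact (lnc_commute n (fun i hi => (h j (by omega) i (by omega)).symm)).symm
    · exact lnc_commute n (fun i hi => h i (by omega) (n + 1) le_rfl)
    · exact (lnc_commute n (fun i hi => (h (n + 1) le_rfl i (by omega)).symm)).symm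
    · exact h (n + 1) le_rfl (n + 1) le_rfl

end lnc

section gam

variable {G : Type*} [Group G]

theorem gam_mono {H K : Subgroup G} (h : H ≤ K) (n : ℕ) : gam H n ≤ gam K n := by
  induction n with
  | zero => exact h
  | succ n ih => exact Subgroup.commutator_mono ih h

theorem gam_succ_le (H : Subgroup G) (n : ℕ) : gam H (n + 1) ≤ gam H n := by
  induction n with
  | zero =>
    simp only [gam]
    rw [Subgroup.commutator_le]
    intro a ha b hb
    rw [commutatorElement_def]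
    exact H.mul_mem (H.mul_mem (H.mul_mem ha hb) (H.inv_mem ha)) (H.inv_mem hb)
  | succ n ih => exact Subgroup.commutator_mono ih le_rfl

theorem gam_le_self (H : Subgroup G) (n : ℕ) : gam H n ≤ H := by
  induction n with
  | zero => exact le_rfl
  | succ n ih => exact (gam_succ_le H n).trans ih

theorem comm_mem_gam (H : Subgroup G) (n : ℕ) {g h : G} (hg : g ∈ gam H n) (hh : h ∈ H) :
    ⁅g, h⁆ ∈ gam H (n + 1) :=
  Subgroup.commutator_mem_commutator hg hh

theorem comm_mem_gam' (H : Subgroup G) (n : ℕ) {g h : G} (hg : g ∈ gam H n) (hh : h ∈ H) :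
    ⁅h, g⁆ ∈ gam H (n + 1) := by
  rw [← commutatorElement_inv]
  exact Subgroup.inv_mem _ (comm_mem_gam H n hg hh)

theorem gam_conj (H : Subgroup G) (n : ℕ) {g h : G} (hg : g ∈ gam H n) (hh : h ∈ H) :
    h * g * h⁻¹ ∈ gam H n := by
  have h1 : h * g * h⁻¹ = ⁅h, g⁆ * g := by rw [commutatorElement_def]; group
  rw [h1]
  exact Subgroup.mul_mem _ (gam_succ_le H n (comm_mem_gam' H n hg hh)) hg

/-- Weight `n+1` left-normed commutators of generators generate `gam n` as a normal subgroup. -/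
theorem gam_le_of_lnc (X : Set G) (n : ℕ) (T : Subgroup G)
    (hT : ∀ h ∈ Subgroup.closure X, ∀ t ∈ T, h * t * h⁻¹ ∈ T)
    (hX : ∀ a : ℕ → G, (∀ j, a j ∈ X) → lnc a n ∈ T) : gam (Subgroup.closure X) n ≤ T := by
  induction n generalizing T with
  | zero =>
    simp only [gam]
    rw [Subgroup.closure_le]
    intro x hx
    exact hX (fun _ => x) (fun _ => hx)
  | succ n ih =>
    set H := Subgroup.closure X with hH
    let T' : Subgroup G :=
      { carrier := {g | g ∈ H ∧ ∀ h ∈ H, ⁅g, h⁆ ∈ T}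
        one_mem' := ⟨H.one_mem, fun h _ => by rw [commutatorElement_one_left]; exact T.one_mem⟩
        mul_mem' := by
          rintro a b ⟨ha, ha'⟩ ⟨hb, hb'⟩
          refine ⟨H.mul_mem ha hb, fun h hh => ?_⟩
          have e : ⁅a * b, h⁆ = a * ⁅b, h⁆ * a⁻¹ * ⁅a, h⁆ := by
            simp only [commutatorElement_def]; group
          rw [e]
          exact T.mul_mem (hT a ha _ (hb' h hh)) (ha' h hh)
        inv_mem' := by
          rintro a ⟨ha, ha'⟩
          refine ⟨H.inv_mem ha, fun h hh => ?_⟩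
          have e : ⁅a⁻¹, h⁆ = a⁻¹ * (⁅a, h⁆)⁻¹ * (a⁻¹)⁻¹ := by
            simp only [commutatorElement_def]; group
          rw [e]
          exact hT _ (H.inv_mem ha) _ (T.inv_mem (ha' h hh)) }
    have key : gam H n ≤ T' := by
      apply ih T'
      · rintro k hk g ⟨hg, hg'⟩
        refine ⟨H.mul_mem (H.mul_mem hk hg) (H.inv_mem hk), fun h hh => ?_⟩
        have e : ⁅k * g * k⁻¹, h⁆ = k * ⁅g, k⁻¹ * h * k⁆ * k⁻¹ := by
          simp only [commutatorElement_def]; group
        rw [e]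
        exact hT k hk _ (hg' _ (H.mul_mem (H.mul_mem (H.inv_mem hk) hh) hk))
      · intro a ha
        have hc : lnc a n ∈ H := lnc_mem H n (fun j _ => Subgroup.subset_closure (ha j))
        refine ⟨hc, fun h hh => ?_⟩
        refine Subgroup.closure_induction (p := fun h _ => ⁅lnc a n, h⁆ ∈ T) ?_ ?_ ?_ ?_ hh
        · intro x hx
          have h1 := hX (fun j => if j ≤ n then a j else x) (fun j => by
            by_cases hj : j ≤ n
            · simp only [hj, if_true]; exact ha j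
            · simp only [hj, if_false]; exact hx)
          simp only [lnc] at h1
          have h2 : ¬ (n + 1 ≤ n) := by omega
          rw [if_neg h2] at h1
          rw [lnc_congr n (b := a) (fun j hj => by simp only [hj, if_true])] at h1
          exact h1
        · rw [commutatorElement_one_right]; exact T.one_mem
        · intro x y hx hy h1 h2
          have e : ⁅lnc a n, x * y⁆ = ⁅lnc a n, x⁆ * (x * ⁅lnc a n, y⁆ * x⁻¹) := by
            simp only [commutatorElement_def]; group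
          rw [e]
          exact T.mul_mem h1 (hT x hx _ h2)
        · intro x hx h1
          have e : ⁅lnc a n, x⁻¹⁆ = x⁻¹ * (⁅lnc a n, x⁆)⁻¹ * (x⁻¹)⁻¹ := by
            simp only [commutatorElement_def]; group
          rw [e]
          exact hT _ (H.inv_mem hx) _ (T.inv_mem h1)
    simp only [gam]
    rw [Subgroup.commutator_le]
    intro g hg h hh
    exact (key hg).2 h hh

/-- `gam n` is generated modulo `gam (n+1)` by the left-normed commutators of generators. -/
theorem gam_le_sup_closure (X : Set G) (n : ℕ) :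
    gam (Subgroup.closure X) n ≤ gam (Subgroup.closure X) (n + 1) ⊔
      Subgroup.closure {g | ∃ a : ℕ → G, (∀ j, a j ∈ X) ∧ g = lnc a n} := by
  set H := Subgroup.closure X with hH
  set C : Set G := {g | ∃ a : ℕ → G, (∀ j, a j ∈ X) ∧ g = lnc a n} with hC
  have hle : gam H (n + 1) ⊔ Subgroup.closure C
      = Subgroup.closure ((gam H (n + 1) : Set G) ∪ C) := by
    rw [Subgroup.closure_union, Subgroup.closure_eq]
  apply gam_le_of_lnc
  · intro h hh t ht
    rw [hle] at ht ⊢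
    refine Subgroup.closure_induction
      (p := fun t _ => h * t * h⁻¹ ∈ Subgroup.closure ((gam H (n + 1) : Set G) ∪ C))
      ?_ ?_ ?_ ?_ ht
    · rintro t (ht | ⟨a, ha, rfl⟩)
      · exact Subgroup.subset_closure (Or.inl (gam_conj H (n + 1) ht hh))
      · have e : h * lnc a n * h⁻¹ = ⁅h, lnc a n⁆ * lnc a n := by
          rw [commutatorElement_def]; group
        rw [e]
        refine Subgroup.mul_mem _ (Subgroup.subset_closure (Or.inl ?_))
          (Subgroup.subset_closure (Or.inr ⟨a, ha, rfl⟩))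
        exact comm_mem_gam' H n
          (lnc_mem_gam H n (fun j _ => Subgroup.subset_closure (ha j))) hh
    · rw [mul_one, mul_inv_cancel]; exact Subgroup.one_mem _
    · intro x y _ _ h1 h2
      have e : h * (x * y) * h⁻¹ = (h * x * h⁻¹) * (h * y * h⁻¹) := by group
      rw [e]
      exact Subgroup.mul_mem _ h1 h2
    · intro x _ h1
      have e : h * x⁻¹ * h⁻¹ = (h * x * h⁻¹)⁻¹ := by group
      rw [e]
      exact Subgroup.inv_mem _ h1
  · intro a ha
    exact Subgroup.mem_sup_right (Subgroup.subset_closure ⟨a, ha, rfl⟩)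

theorem gam_mem_directed (L : ℕ → Subgroup G) (hL : Monotone L) (S : Subgroup G)
    (hS : S ≤ ⨆ m, L m) (n m₀ : ℕ) {g : G} (hg : g ∈ gam S n) :
    ∃ m, m₀ ≤ m ∧ g ∈ gam (L m) n := by
  have hdir : ∀ k, Directed (· ≤ ·) (fun m => gam (L m) k) := fun k =>
    Monotone.directed_le (fun a b hab => gam_mono (hL hab) k)
  have key : gam S n ≤ ⨆ m, gam (L m) n := by
    induction n generalizing g with
    | zero => exact hS
    | succ n ih =>
      simp only [gam]
      rw [Subgroup.commutator_le]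
      intro a ha b hb
      have ha' := ih (g := 1) (Subgroup.one_mem _) ha
      rw [Subgroup.mem_iSup_of_directed (hdir n)] at ha'
      obtain ⟨m1, h1⟩ := ha'
      have hb' := hS hb
      rw [Subgroup.mem_iSup_of_directed (Monotone.directed_le hL)] at hb'
      obtain ⟨m2, h2⟩ := hb'
      refine Subgroup.mem_iSup_of_mem (max m1 m2) ?_
      exact Subgroup.commutator_mem_commutator (gam_mono (hL (le_max_left _ _)) n h1)
        (hL (le_max_right _ _) h2)
  have hg' := key hg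
  rw [Subgroup.mem_iSup_of_directed (hdir n)] at hg'
  obtain ⟨m, hm⟩ := hg'
  exact ⟨max m₀ m, le_max_left _ _, gam_mono (hL (le_max_right _ _)) n hm⟩

end gam

theorem two_mul_not_dvd {D d : ℤ} (h : |d| < D) : ¬ (2 * D ∣ D + d) := by
  rintro ⟨k, hk⟩
  obtain ⟨h1, h2⟩ := abs_lt.mp h
  have hD : 0 < D := lt_of_le_of_lt (abs_nonneg d) h
  have h3 : 0 < k := by
    by_contra hk0
    push Not at hk0
    nlinarith
  nlinarith

namespace Sys

variable {G : Type*} [Group G] (s : Sys G)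

theorem per_mul (m : ℕ) (r : ℤ) (τ : Bool) (k : ℤ) :
    s.x m (r + k * 2 ^ (m + 1)) τ = s.x m r τ := by
  induction k using Int.induction_on with
  | zero => simp
  | succ i ih =>
    have e : r + ((i : ℤ) + 1) * 2 ^ (m + 1) = (r + i * 2 ^ (m + 1)) + 2 ^ (m + 1) := by ring
    rw [e, s.per, ih]
  | pred i ih =>
    have e : r + -(i : ℤ) * 2 ^ (m + 1) = (r + (-(i : ℤ) - 1) * 2 ^ (m + 1)) + 2 ^ (m + 1) := by
      ring
    rw [e, s.per] at ih
    exact ih

theorem per_dvd {m : ℕ} {r r' : ℤ} (τ : Bool) (h : (2 : ℤ) ^ (m + 1) ∣ r' - r) :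
    s.x m r' τ = s.x m r τ := by
  obtain ⟨k, hk⟩ := h
  have e : r' = r + k * 2 ^ (m + 1) := by linarith
  rw [e, per_mul]

theorem x_mem_lvl (m : ℕ) (r : ℤ) (τ : Bool) : s.x m r τ ∈ s.lvl m :=
  Subgroup.subset_closure ⟨r, τ, rfl⟩

theorem x_mem_S (m : ℕ) (r : ℤ) (τ : Bool) : s.x m r τ ∈ s.S :=
  Subgroup.subset_closure ⟨m, r, τ, rfl⟩

theorem lvl_le_S (m : ℕ) : s.lvl m ≤ s.S := by
  rw [lvl, Subgroup.closure_le]
  rintro g ⟨r, τ, rfl⟩
  exact s.x_mem_S m r τ

theorem lvl_mono : Monotone s.lvl := by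
  apply monotone_nat_of_le_succ
  intro m
  rw [lvl, Subgroup.closure_le]
  rintro g ⟨r, τ, rfl⟩
  rw [s.split]
  exact Subgroup.mul_mem _ (s.x_mem_lvl _ _ _) (s.x_mem_lvl _ _ _)

theorem S_le_iSup : s.S ≤ ⨆ m, s.lvl m := by
  rw [S, Subgroup.closure_le]
  rintro g ⟨m, r, τ, rfl⟩
  exact Subgroup.mem_iSup_of_mem m (s.x_mem_lvl m r τ)

/-- The value of the pattern `(u, t)` of weight `n + 1` at level `m` and position `r`. -/
def pat (u : ℕ → ℤ) (t : ℕ → Bool) (n m : ℕ) (r : ℤ) : G :=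
  lnc (fun j => s.x m (r + u j) (t j)) n

theorem pat_congr {u u' : ℕ → ℤ} {t t' : ℕ → Bool} (n m : ℕ) (r : ℤ)
    (hu : ∀ j ≤ n, u j = u' j) (ht : ∀ j ≤ n, t j = t' j) :
    s.pat u t n m r = s.pat u' t' n m r :=
  lnc_congr n (fun j hj => by rw [hu j hj, ht j hj])

theorem pat_mem_lvl (u : ℕ → ℤ) (t : ℕ → Bool) (n m : ℕ) (r : ℤ) :
    s.pat u t n m r ∈ s.lvl m :=
  lnc_mem _ n (fun j _ => s.x_mem_lvl _ _ _)

theorem pat_mem_gam (u : ℕ → ℤ) (t : ℕ → Bool) (n m : ℕ) (r : ℤ) :
    s.pat u t n m r ∈ gam s.S n :=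
  lnc_mem_gam _ n (fun j _ => s.x_mem_S _ _ _)

theorem pat_per (u : ℕ → ℤ) (t : ℕ → Bool) (n m : ℕ) (r : ℤ) :
    s.pat u t n m (r + 2 ^ (m + 1)) = s.pat u t n m r := by
  refine lnc_congr n (fun j _ => ?_)
  have e : r + 2 ^ (m + 1) + u j = (r + u j) + 2 ^ (m + 1) := by ring
  simp only [e, s.per]

theorem pat_shift (u : ℕ → ℤ) (t : ℕ → Bool) (n m : ℕ) (r : ℤ) :
    s.y * s.pat u t n m r * s.y⁻¹ = s.pat u t n m (r + 1) := by
  have h1 := map_lnc (MulAut.conj s.y).toMonoidHom (fun j => s.x m (r + u j) (t j)) n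
  have h2 : (MulAut.conj s.y).toMonoidHom (lnc (fun j => s.x m (r + u j) (t j)) n)
      = s.y * s.pat u t n m r * s.y⁻¹ := rfl
  rw [← h2, h1]
  refine lnc_congr n (fun j _ => ?_)
  have e : r + 1 + u j = (r + u j) + 1 := by ring
  have h3 : (MulAut.conj s.y).toMonoidHom (s.x m (r + u j) (t j))
      = s.y * s.x m (r + u j) (t j) * s.y⁻¹ := rfl
  rw [h3, s.shift, e]

theorem pat_zpow_shift (u : ℕ → ℤ) (t : ℕ → Bool) (n m : ℕ) (r : ℤ) :
    s.y ^ r * s.pat u t n m 0 * (s.y ^ r)⁻¹ = s.pat u t n m r := by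
  induction r using Int.induction_on with
  | zero => simp
  | succ i ih =>
    rw [← pat_shift, ← ih]
    rw [show s.y ^ ((i : ℤ) + 1) = s.y * s.y ^ (i : ℤ) by
      rw [add_comm, zpow_add, zpow_one]]
    group
  | pred i ih =>
    have h1 := s.pat_shift u t n m (-(i : ℤ) - 1)
    rw [sub_add_cancel, ← ih] at h1
    have h2 : s.pat u t n m (-(i : ℤ) - 1)
        = s.y⁻¹ * (s.y ^ (-(i : ℤ)) * s.pat u t n m 0 * (s.y ^ (-(i : ℤ)))⁻¹) * s.y := by
      rw [← h1]; group
    rw [h2, show s.y ^ (-(i : ℤ) - 1) = s.y⁻¹ * s.y ^ (-(i : ℤ)) by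
      rw [sub_eq_add_neg, add_comm, zpow_add, zpow_neg_one]]
    group

theorem pat_sq (u : ℕ → ℤ) (t : ℕ → Bool) (n m : ℕ) (r : ℤ) :
    s.pat u t n m r * s.pat u t n m r ∈ gam s.S (n + 1) := by
  cases n with
  | zero =>
    have h : s.pat u t 0 m r * s.pat u t 0 m r = 1 := s.inv _ _ _
    rw [h]; exact Subgroup.one_mem _
  | succ n =>
    set c := s.pat u t n m r with hc
    set z := s.x m (r + u (n + 1)) (t (n + 1)) with hz
    have h1 : s.pat u t (n + 1) m r = ⁅c, z⁆ := rfl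
    have hzS : z ∈ s.S := s.x_mem_S _ _ _
    have h2 : ⁅c, z⁆ ∈ gam s.S (n + 1) := comm_mem_gam _ n (s.pat_mem_gam u t n m r) hzS
    have h3 : ⁅z, ⁅c, z⁆⁆ ∈ gam s.S (n + 2) := comm_mem_gam' _ (n + 1) h2 hzS
    have h4 : ⁅c, z⁆ * ⁅z, ⁅c, z⁆⁆ * ⁅c, z⁆ = 1 := by
      have e1 : ⁅c, z⁆ * ⁅z, ⁅c, z⁆⁆ * ⁅c, z⁆ = ⁅c, z * z⁆ := by
        simp only [commutatorElement_def]; group
      rw [e1, s.inv, commutatorElement_one_right]
    rw [h1]
    have h5 : ⁅c, z⁆ * ⁅c, z⁆ = (⁅c, z⁆ * ⁅z, ⁅c, z⁆⁆ * (⁅c, z⁆)⁻¹)⁻¹ := by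
      have h6 : ⁅c, z⁆ * ⁅z, ⁅c, z⁆⁆ = (⁅c, z⁆)⁻¹ := mul_eq_one_iff_eq_inv.mp h4
      rw [h6]; group
    rw [h5]
    exact Subgroup.inv_mem _ (gam_conj _ _ h3 (gam_le_self _ _ h2))

theorem pat_split (u : ℕ → ℤ) (t : ℕ → Bool) (n m : ℕ) (r : ℤ) (R : ℤ)
    (hu : ∀ j ≤ n, |u j| ≤ R) (hR : 2 * R + 1 < 2 ^ (m + 1)) :
    s.pat u t n m r = s.pat u t n (m + 1) r * s.pat u t n (m + 1) (r + 2 ^ (m + 1)) := by
  have h1 : s.pat u t n m r = lnc (fun j => s.x (m + 1) (r + u j) (t j)
      * s.x (m + 1) (r + 2 ^ (m + 1) + u j) (t j)) n := by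
    refine lnc_congr n (fun j _ => ?_)
    have e : r + 2 ^ (m + 1) + u j = r + u j + 2 ^ (m + 1) := by ring
    simp only [e]
    exact s.split _ _ _
  rw [h1]
  apply lnc_mul
  intro i hi j hj
  have hi' := abs_le.mp (hu i hi)
  have hj' := abs_le.mp (hu j hj)
  apply s.far
  · have e : r + 2 ^ (m + 1) + u j - (r + u i) - 1 = 2 ^ (m + 1) + (u j - u i - 1) := by ring
    rw [e, show (2 : ℤ) ^ (m + 1 + 1) = 2 * 2 ^ (m + 1) by ring]
    apply two_mul_not_dvd
    rw [abs_lt]; constructor <;> linarith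
  · have e : r + 2 ^ (m + 1) + u j - (r + u i) + 1 = 2 ^ (m + 1) + (u j - u i + 1) := by ring
    rw [e, show (2 : ℤ) ^ (m + 1 + 1) = 2 * 2 ^ (m + 1) by ring]
    apply two_mul_not_dvd
    rw [abs_lt]; constructor <;> linarith

/-- A left-normed commutator of elements of one level is trivial or a pattern of small radius. -/
theorem lnc_eq_pat (m : ℕ) (ρ : ℕ → ℤ) (τ : ℕ → Bool) (n : ℕ) :
    lnc (fun j => s.x m (ρ j) (τ j)) n = 1 ∨
      ∃ u : ℕ → ℤ, (∀ j ≤ n, |u j| ≤ j) ∧ (∀ j ≤ n, s.x m (ρ j) (τ j) = s.x m (ρ 0 + u j) (τ j)) ∧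
        (∀ j ≤ n, (2 : ℤ) ^ (m + 1) ∣ ρ j - (ρ 0 + u j)) := by
  induction n with
  | zero =>
    right
    refine ⟨fun _ => 0, ?_, ?_, ?_⟩
    · intro j hj
      have : j = 0 := by omega
      subst this; simp
    · intro j hj
      have : j = 0 := by omega
      subst this; simp
    · intro j hj
      have : j = 0 := by omega
      subst this; simp
  | succ n ih =>
    rcases ih with h | ⟨u, hu1, hu2, hu3⟩
    · left
      simp only [lnc]
      rw [h, commutatorElement_one_left]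
    · by_cases hadj : ∃ j ≤ n, (2 : ℤ) ^ (m + 1) ∣ ρ (n + 1) - ρ j - 1 ∨
          (2 : ℤ) ^ (m + 1) ∣ ρ (n + 1) - ρ j + 1
      · right
        obtain ⟨j, hj, hadj⟩ := hadj
        have hw : ∃ w : ℤ, |w| ≤ ((n + 1 : ℕ) : ℤ) ∧ (2 : ℤ) ^ (m + 1) ∣ ρ (n + 1) - (ρ 0 + w) := by
          have hj1 := abs_le.mp (hu1 j hj)
          have hjn : (j : ℤ) ≤ n := by exact_mod_cast hj
          rcases hadj with h | h
          · refine ⟨u j + 1, ?_, ?_⟩
            · rw [abs_le]; push_cast; constructor <;> linarith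
            · have e : ρ (n + 1) - (ρ 0 + (u j + 1))
                  = (ρ (n + 1) - ρ j - 1) + (ρ j - (ρ 0 + u j)) := by ring
              rw [e]; exact dvd_add h (hu3 j hj)
          · refine ⟨u j - 1, ?_, ?_⟩
            · rw [abs_le]; push_cast; constructor <;> linarith
            · have e : ρ (n + 1) - (ρ 0 + (u j - 1))
                  = (ρ (n + 1) - ρ j + 1) + (ρ j - (ρ 0 + u j)) := by ring
              rw [e]; exact dvd_add h (hu3 j hj)
        obtain ⟨w, hw1, hw2⟩ := hw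
        refine ⟨fun j => if j ≤ n then u j else w, ?_, ?_, ?_⟩
        · intro i hi
          by_cases hin : i ≤ n
          · simp only [hin, if_true]; exact hu1 i hin
          · have : i = n + 1 := by omega
            subst this
            simp only [hin, if_false]; exact hw1
        · intro i hi
          by_cases hin : i ≤ n
          · simp only [hin, if_true]; exact hu2 i hin
          · have : i = n + 1 := by omega
            subst this
            simp only [hin, if_false]; exact s.per_dvd _ hw2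
        · intro i hi
          by_cases hin : i ≤ n
          · simp only [hin, if_true]; exact hu3 i hin
          · have : i = n + 1 := by omega
            subst this
            simp only [hin, if_false]; exact hw2
      · left
        push Not at hadj
        simp only [lnc]
        rw [commutatorElement_eq_one_iff_commute]
        apply lnc_commute
        intro j hj
        obtain ⟨h1, h2⟩ := hadj j hj
        exact s.far _ _ _ _ _ h1 h2

/-- `gam S n` is generated modulo `gam S (n+1)` by the patterns of radius `≤ n` of levels `≥ m₀`. -/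
theorem gam_eq_sup (n m₀ : ℕ) : gam s.S n = gam s.S (n + 1) ⊔
    Subgroup.closure {g | ∃ (u : ℕ → ℤ) (t : ℕ → Bool) (m : ℕ) (r : ℤ),
      (∀ j ≤ n, |u j| ≤ n) ∧ m₀ ≤ m ∧ g = s.pat u t n m r} := by
  apply le_antisymm
  · intro g hg
    obtain ⟨m, hm, hg⟩ := gam_mem_directed s.lvl s.lvl_mono s.S s.S_le_iSup n m₀ hg
    have h1 := gam_le_sup_closure {g | ∃ r τ, g = s.x m r τ} n hg
    revert g
    intro g _ _ h1
    revert h1
    apply SetLike.le_def.mp
    apply sup_le
    · exact (gam_mono (s.lvl_le_S m) (n + 1)).trans le_sup_left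
    · rw [Subgroup.closure_le]
      rintro h ⟨a, ha, rfl⟩
      choose ρ τ hρ using ha
      have ha : a = fun j => s.x m (ρ j) (τ j) := funext hρ
      rw [ha]
      rcases s.lnc_eq_pat m ρ τ n with h | ⟨u, hu1, hu2, -⟩
      · rw [h]; exact Subgroup.one_mem _
      · apply Subgroup.mem_sup_right
        apply Subgroup.subset_closure
        refine ⟨u, τ, m, ρ 0, ?_, hm, lnc_congr n hu2⟩
        intro j hj
        refine (hu1 j hj).trans ?_
        exact_mod_cast hj
  · apply sup_le (gam_succ_le _ _)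
    rw [Subgroup.closure_le]
    rintro g ⟨u, t, m, r, -, -, rfl⟩
    exact s.pat_mem_gam u t n m r

end Sys

/-- The finite type of patterns of radius `≤ n` and weight `n + 1`. -/
abbrev PatIdx (n : ℕ) : Type := Fin (n + 1) → (Set.Icc (-(n : ℤ)) n) × Bool

def PatIdx.u {n : ℕ} (p : PatIdx n) (j : ℕ) : ℤ :=
  if h : j < n + 1 then ((p ⟨j, h⟩).1 : ℤ) else 0

def PatIdx.t {n : ℕ} (p : PatIdx n) (j : ℕ) : Bool :=
  if h : j < n + 1 then (p ⟨j, h⟩).2 else false

theorem PatIdx.abs_u {n : ℕ} (p : PatIdx n) (j : ℕ) : |p.u j| ≤ n := by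
  unfold PatIdx.u
  split_ifs with h
  · have := (p ⟨j, h⟩).1.2
    rw [Set.mem_Icc] at this
    exact abs_le.mpr this
  · simp

theorem exists_patIdx {n : ℕ} (u : ℕ → ℤ) (t : ℕ → Bool) (hu : ∀ j ≤ n, |u j| ≤ n) :
    ∃ p : PatIdx n, (∀ j ≤ n, u j = p.u j) ∧ (∀ j ≤ n, t j = p.t j) := by
  refine ⟨fun j => (⟨u j, abs_le.mp (hu j (by omega))⟩, t j), ?_, ?_⟩
  · intro j hj
    have h : j < n + 1 := by omega
    simp only [PatIdx.u, h, dif_pos]
  · intro j hj
    have h : j < n + 1 := by omega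
    simp only [PatIdx.t, h, dif_pos]

/-- C2 generation of the factors by finitely many families. -/
theorem patterns {G : Type*} [Group G] (s : Sys G) (n : ℕ) :
    ∃ (k m₀ : ℕ) (z : Fin k → ℕ → ℤ → G),
      (∀ α m r, m₀ ≤ m → z α m r ∈ gam s.S n) ∧
      (gam s.S n = gam s.S (n + 1) ⊔ Subgroup.closure {g | ∃ α m r, m₀ ≤ m ∧ g = z α m r}) ∧
      (∀ α m r, m₀ ≤ m → z α m r * z α m r ∈ gam s.S (n + 1)) ∧
      (∀ α m r, m₀ ≤ m → z α m r = z α (m + 1) r * z α (m + 1) (r + 2 ^ (m + 1))) ∧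
      (∀ α m r, m₀ ≤ m → z α m (r + 2 ^ (m + 1)) = z α m r) ∧
      (∀ α m r, m₀ ≤ m → s.y * z α m r * s.y⁻¹ = z α m (r + 1)) := by
  have : Fintype (PatIdx n) := Fintype.ofFinite _
  let e : PatIdx n ≃ Fin (Fintype.card (PatIdx n)) := Fintype.equivFin _
  refine ⟨Fintype.card (PatIdx n), n + 1,
    fun α m r => s.pat (e.symm α).u (e.symm α).t n m r, ?_, ?_, ?_, ?_, ?_, ?_⟩
  · intro α m r _; exact s.pat_mem_gam _ _ n m r
  · rw [s.gam_eq_sup n (n + 1)]
    congr 2
    ext g
    constructor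
    · rintro ⟨u, t, m, r, hu, hm, rfl⟩
      obtain ⟨p, hp1, hp2⟩ := exists_patIdx u t hu
      refine ⟨e p, m, r, hm, ?_⟩
      simp only [Equiv.symm_apply_apply]
      exact s.pat_congr n m r hp1 hp2
    · rintro ⟨α, m, r, hm, rfl⟩
      exact ⟨_, _, m, r, fun j _ => (e.symm α).abs_u j, hm, rfl⟩
  · intro α m r _; exact s.pat_sq _ _ n m r
  · intro α m r hm
    apply s.pat_split _ _ n m r n (fun j _ => (e.symm α).abs_u j)
    have h1 : (m + 1 : ℤ) < 2 ^ (m + 1) := by
      have := Nat.lt_two_pow_self (n := m + 1)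
      exact_mod_cast this
    have h2 : (n : ℤ) + 1 ≤ m := by exact_mod_cast hm
    have h3 : (m : ℤ) < 2 ^ m := by exact_mod_cast Nat.lt_two_pow_self (n := m)
    have h4 : (2 : ℤ) ^ (m + 1) = 2 * 2 ^ m := by ring
    rw [h4]; linarith
  · intro α m r _; exact s.pat_per _ _ n m r
  · intro α m r _; exact s.pat_shift _ _ n m r

namespace Sys

variable {G : Type*} [Group G] (s : Sys G)

/-- The elements of level `m = q + e` lying over position `r + i` (`|i| ≤ R`) of level `q`, except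
those at the positions `r + i` of level `m`. -/
def other (q e : ℕ) (r R : ℤ) : Subgroup G :=
  Subgroup.closure {g | ∃ (k i : ℤ) (τ : Bool), |i| ≤ R ∧ ¬ ((2 : ℤ) ^ e ∣ k) ∧
    g = s.x (q + e) (r + k * 2 ^ (q + 1) + i) τ}

theorem other_le (q e : ℕ) (r R : ℤ) : s.other q e r R ≤ s.other q (e + 1) r R := by
  rw [other, Subgroup.closure_le]
  rintro g ⟨k, i, τ, hi, hk, rfl⟩
  rw [s.split]
  apply Subgroup.mul_mem
  · refine Subgroup.subset_closure ⟨k, i, τ, hi, ?_, rfl⟩
    intro h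
    exact hk (dvd_trans ⟨2, by ring⟩ h)
  · refine Subgroup.subset_closure ⟨k + 2 ^ e, i, τ, hi, ?_, ?_⟩
    · intro h
      apply hk
      have h1 : (2 : ℤ) ^ e ∣ k + 2 ^ e := dvd_trans ⟨2, by ring⟩ h
      exact (dvd_add_left (dvd_refl _)).mp h1
    · have e1 : r + k * 2 ^ (q + 1) + i + 2 ^ (q + e + 1)
          = r + (k + 2 ^ e) * 2 ^ (q + 1) + i := by ring
      rw [e1]; rfl

theorem pat_eq_mul_other (u : ℕ → ℤ) (t : ℕ → Bool) (n q : ℕ) (r : ℤ) (R : ℤ)
    (hu : ∀ j ≤ n, |u j| ≤ R) (hR : 2 * R + 1 < 2 ^ (q + 1)) (e : ℕ) :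
    ∃ w ∈ s.other q e r R, s.pat u t n q r = s.pat u t n (q + e) r * w := by
  induction e with
  | zero => exact ⟨1, Subgroup.one_mem _, by rw [add_zero, mul_one]⟩
  | succ e ih =>
    obtain ⟨w, hw, h⟩ := ih
    refine ⟨s.pat u t n (q + e + 1) (r + 2 ^ (q + e + 1)) * w, ?_, ?_⟩
    · apply Subgroup.mul_mem _ _ (s.other_le _ _ _ _ hw)
      apply lnc_mem
      intro j hj
      refine Subgroup.subset_closure ⟨2 ^ e, u j, t j, hu j hj, ?_, ?_⟩
      · intro h
        have h1 := Int.le_of_dvd (by positivity) h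
        have h2 : (2 : ℤ) ^ (e + 1) = 2 * 2 ^ e := by ring
        have h3 : (0 : ℤ) < 2 ^ e := by positivity
        linarith
      · have e1 : r + 2 ^ (q + e + 1) + u j = r + 2 ^ e * 2 ^ (q + 1) + u j := by ring
        rw [e1]; rfl
    · rw [h, s.pat_split u t n (q + e) r R hu ?_]
      · rw [mul_assoc]; rfl
      · refine lt_of_lt_of_le hR ?_
        apply pow_le_pow_right₀ (by norm_num) (by omega)

theorem other_commute (q e : ℕ) (r R : ℤ) (hR : 2 * R + 2 < 2 ^ (q + 1)) {w : G}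
    (hw : w ∈ s.other q e r R) (v : ℤ) (hv : |v - r| ≤ R + 1) (τ : Bool) :
    Commute w (s.x (q + e) v τ) := by
  have h1 : s.other q e r R ≤ Subgroup.centralizer ({s.x (q + e) v τ} : Set G) := by
    rw [other, Subgroup.closure_le]
    rintro g ⟨k, i, σ, hi, hk, rfl⟩
    rw [SetLike.mem_coe, Subgroup.mem_centralizer_iff]
    intro g hg
    rw [Set.mem_singleton_iff] at hg
    subst hg
    have hv' := abs_le.mp hv
    have hi' := abs_le.mp hi
    have key : ∀ c : ℤ, |c| ≤ 1 →
        ¬ ((2 : ℤ) ^ (q + e + 1) ∣ r + k * 2 ^ (q + 1) + i - v + c) := by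
      intro c hc hd
      have hc' := abs_le.mp hc
      have e1 : (2 : ℤ) ^ (q + e + 1) = 2 ^ (q + 1) * 2 ^ e := by ring
      have h2 : (2 : ℤ) ^ (q + 1) ∣ r + k * 2 ^ (q + 1) + i - v + c :=
        dvd_trans ⟨2 ^ e, e1⟩ hd
      have h3 : (2 : ℤ) ^ (q + 1) ∣ (r + i - v + c) := by
        have e2 : r + k * 2 ^ (q + 1) + i - v + c = (r + i - v + c) + k * 2 ^ (q + 1) := by ring
        rw [e2] at h2
        exact (dvd_add_left (dvd_mul_left _ _)).mp h2
      have h4 : r + i - v + c = 0 := by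
        apply Int.eq_zero_of_abs_lt_dvd h3
        rw [abs_lt]; constructor <;> linarith
      have e3 : r + k * 2 ^ (q + 1) + i - v + c = 2 ^ (q + 1) * k := by linarith
      rw [e3, e1] at hd
      exact hk ((mul_dvd_mul_iff_left (by positivity)).mp hd)
    have h5 := s.far (q + e) v (r + k * 2 ^ (q + 1) + i) τ σ
      (by have := key (-1) (by norm_num); rwa [← sub_eq_add_neg] at this)
      (key 1 (by norm_num))
    exact h5.eq
  have h2 := h1 hw
  rw [Subgroup.mem_centralizer_iff] at h2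
  exact (h2 _ rfl).symm

end Sys

/-- C1 exactness. -/
theorem exactness {G : Type*} [Group G] (s : Sys G) (n : ℕ) :
    ∃ F : Finset G, (F : Set G) ⊆ gam s.S n ∧
      gam s.S (n + 1) ≤ Subgroup.normalClosure (F : Set G) := by
  classical
  have : Fintype (PatIdx n) := Fintype.ofFinite _
  set q := n + 2 with hq
  have hRq : 2 * (n : ℤ) + 2 < 2 ^ (q + 1) := by
    have h1 : (n : ℤ) < 2 ^ n := by exact_mod_cast Nat.lt_two_pow_self (n := n)
    have h2 : (2 : ℤ) ^ (q + 1) = 8 * 2 ^ n := by rw [hq]; ring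
    have h3 : (0 : ℤ) ≤ n := by positivity
    rw [h2]; linarith
  refine ⟨Finset.univ.image (fun p : PatIdx n => s.pat p.u p.t n q 0), ?_, ?_⟩
  · intro g hg
    rw [Finset.mem_coe, Finset.mem_image] at hg
    obtain ⟨p, -, rfl⟩ := hg
    exact s.pat_mem_gam _ _ n q 0
  · set N := Subgroup.normalClosure
      ((Finset.univ.image (fun p : PatIdx n => s.pat p.u p.t n q 0) : Finset G) : Set G) with hN
    have hNn : N.Normal := Subgroup.normalClosure_normal
    -- all patterns of level `q` lie in `N`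
    have hpat : ∀ (u : ℕ → ℤ) (t : ℕ → Bool) (r : ℤ), (∀ j ≤ n, |u j| ≤ n) →
        s.pat u t n q r ∈ N := by
      intro u t r hu
      obtain ⟨p, hp1, hp2⟩ := exists_patIdx u t hu
      rw [s.pat_congr n q r hp1 hp2, ← s.pat_zpow_shift]
      apply hNn.conj_mem
      apply Subgroup.subset_normalClosure
      rw [Finset.mem_coe, Finset.mem_image]
      exact ⟨p, Finset.mem_univ _, rfl⟩
    intro g hg
    obtain ⟨m, hm, hg⟩ := gam_mem_directed s.lvl s.lvl_mono s.S s.S_le_iSup (n + 1) q hg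
    obtain ⟨e, rfl⟩ := Nat.exists_eq_add_of_le hm
    refine gam_le_of_lnc {g | ∃ r τ, g = s.x (q + e) r τ} (n + 1) N
      (fun h _ t ht => hNn.conj_mem t ht h) ?_ hg
    intro a ha
    choose ρ τ hρ using ha
    have ha : a = fun j => s.x (q + e) (ρ j) (τ j) := funext hρ
    rw [ha]
    simp only [lnc]
    rcases s.lnc_eq_pat (q + e) ρ τ n with h | ⟨u, hu1, hu2, -⟩
    · rw [h, commutatorElement_one_left]; exact Subgroup.one_mem _
    · have hu : ∀ j ≤ n, |u j| ≤ (n : ℤ) := fun j hj =>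
        (hu1 j hj).trans (by exact_mod_cast hj)
      have h1 : lnc (fun j => s.x (q + e) (ρ j) (τ j)) n = s.pat u τ n (q + e) (ρ 0) :=
        lnc_congr n hu2
      rw [h1]
      by_cases hv : ∃ v : ℤ, |v - ρ 0| ≤ (n : ℤ) + 1 ∧ (2 : ℤ) ^ (q + e + 1) ∣ ρ (n + 1) - v
      · obtain ⟨v, hv1, hv2⟩ := hv
        rw [s.per_dvd _ hv2]
        obtain ⟨w, hw, h2⟩ := s.pat_eq_mul_other u τ n q (ρ 0) n hu (by linarith) e
        have h3 := s.other_commute q e (ρ 0) n hRq hw v hv1 (τ (n + 1))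
        have h4 : ⁅s.pat u τ n (q + e) (ρ 0), s.x (q + e) v (τ (n + 1))⁆
            = ⁅s.pat u τ n q (ρ 0), s.x (q + e) v (τ (n + 1))⁆ := by
          rw [h2]
          simp only [commutatorElement_def]
          have h5 : w * s.x (q + e) v (τ (n + 1)) * w⁻¹ = s.x (q + e) v (τ (n + 1)) := by
            rw [h3.eq, mul_inv_cancel_right]
          calc s.pat u τ n (q + e) (ρ 0) * s.x (q + e) v (τ (n + 1))
                * (s.pat u τ n (q + e) (ρ 0))⁻¹ * (s.x (q + e) v (τ (n + 1)))⁻¹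
              = s.pat u τ n (q + e) (ρ 0) * (w * s.x (q + e) v (τ (n + 1)) * w⁻¹)
                * (s.pat u τ n (q + e) (ρ 0))⁻¹ * (s.x (q + e) v (τ (n + 1)))⁻¹ := by rw [h5]
            _ = _ := by group
        rw [h4, commutatorElement_def, mul_assoc, mul_assoc, ← mul_assoc (s.x _ _ _)]
        exact N.mul_mem (hpat u τ _ hu) (hNn.conj_mem _ (N.inv_mem (hpat u τ _ hu)) _)
      · have h2 : Commute (s.pat u τ n (q + e) (ρ 0)) (s.x (q + e) (ρ (n + 1)) (τ (n + 1))) := by
          apply lnc_commute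
          intro j hj
          have hj' := abs_le.mp (hu j hj)
          apply s.far
          · intro hd
            apply hv
            refine ⟨ρ 0 + u j + 1, ?_, ?_⟩
            · rw [abs_le]; constructor <;> linarith
            · have e1 : ρ (n + 1) - (ρ 0 + u j + 1) = ρ (n + 1) - (ρ 0 + u j) - 1 := by ring
              rw [e1]; exact hd
          · intro hd
            apply hv
            refine ⟨ρ 0 + u j - 1, ?_, ?_⟩
            · rw [abs_le]; constructor <;> linarith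
            · have e1 : ρ (n + 1) - (ρ 0 + u j - 1) = ρ (n + 1) - (ρ 0 + u j) + 1 := by ring
              rw [e1]; exact hd
        rw [commutatorElement_eq_one_iff_commute.mpr h2]
        exact Subgroup.one_mem _

end Pool.Agent.Helper11.WeakMax
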